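import Pool.Agent.Helper21.W4.St4

/-!
# Project W4, module G2: type 3, interior, A3 at most W3
-/

set_option autoImplicit false

namespace Pool.Agent.Helper95.W4

open Pool.Agent.Helper21.W4 Finset

theorem nf_mul (A W : ℕ) (hA : 1 ≤ A) :
    3 * nf A W ≤ nf A W * ((W : ℤ) + 2) ∧ 0 ≤ nf A W ∧ nf A W ≤ 1 := by
  unfold nf
  by_cases h : W < A
  · simp [h]
  · simp only [h, if_false]
    have : A ≤ W := not_lt.mp h
    refine ⟨?_, by norm_num, by norm_num⟩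
    push_cast
    omega

theorem face_sb (H u w a e d k n t y z al : ℕ) (f : F3 H u w a e d k n t y z al)
    (hw : u + d ≤ w) :
    8 * (n : ℤ) - 2 + 4 * t + ((t : ℤ) * t - t) ≤ 2 * ((y : ℤ) + z + u + a) := by
  obtain ⟨he, hd, hk, hn1, hzt, hyn, hya, hnt, hna, ha⟩ := f
  have h1 : 2 * al ≤ 2 * (H + 1) * al := Nat.mul_le_mul_right _ (by omega)
  zify at *
  nlinarith [h1, ha, hw, hd, hnt, hna]

theorem sq_nn (t : ℕ) : (0 : ℤ) ≤ (t : ℤ) * t - t := by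
  rcases Nat.eq_zero_or_pos t with h | h
  · subst h; norm_num
  · have : (1 : ℤ) ≤ t := by exact_mod_cast h
    nlinarith

theorem c_sq (n n' ε : ℕ) (h1 : 1 ≤ n) (h2 : n ≤ 2) (h1' : 1 ≤ n') (h2' : n' ≤ 2) (h : ε ≤ 1) :
    (6 + 2 * ((min n n' : ℕ) : ℤ) + 2 * (ε : ℤ)) * (6 + 2 * ((min n n' : ℕ) : ℤ) + 2 * (ε : ℤ)) ≤
      18 * ((((max n n' : ℕ) : ℤ) + 4 * ((n : ℤ) + n') - 3) + 1) := by
  have hn : n = 1 ∨ n = 2 := by omega
  have hn' : n' = 1 ∨ n' = 2 := by omega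
  have hε : ε = 0 ∨ ε = 1 := by omega
  rcases hn with rfl | rfl <;> rcases hn' with rfl | rfl <;> rcases hε with rfl | rfl <;>
    norm_num

/-- Type 3, interior, A3 at most W3. -/
theorem hG2 : StG2 := by
  intro _ hnf hstar hzv hNG x s H ε n t y z al n' t' y' z' al' hb hy ht hA hs
  obtain ⟨z1, v1⟩ := hzv x s hb hy
  apply hstar x hb
  have n3 : nf x.A3 (W3 x) = 1 := by
    unfold nf
    rw [if_neg (by omega)]
  obtain ⟨q1, q1a, q1b⟩ := nf_mul x.A1 (W1 x) hb.A1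
  obtain ⟨q2, q2a, q2b⟩ := nf_mul x.A2 (W2 x) hb.A2
  rw [n3] at z1 v1
  have sb := face_sb _ _ _ _ _ _ _ _ _ _ _ _ ht.f13 hb.d13
  have sb' := face_sb _ _ _ _ _ _ _ _ _ _ _ _ ht.f23 hb.d23
  have u1 := ht.u1
  have u2 := ht.u2
  have u3 := ht.u3
  have b12 := hb.d12
  have b13 := hb.d13
  have b21 := hb.d21
  have b23 := hb.d23
  have b31 := hb.d31
  have b32 := hb.d32
  have g1 : x.u1 + x.d12 + x.d13 ≤ W1 x := by unfold W1; omega
  have g2 : x.u2 + x.d21 + x.d23 ≤ W2 x := by unfold W2; omega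
  have c31 := ht.d31
  have c32 := ht.d32
  have g3 : H + 1 + max n n' ≤ W3 x := by unfold W3; omega
  have hn1 := ht.f13.n1
  have hn1' := ht.f23.n1
  have hn2 := ht.n2
  have hn2' := ht.n2'
  have hd := ht.f13.d
  have hd' := ht.f23.d
  have hk := ht.f13.k
  have hk' := ht.f23.k
  have hzt := ht.f13.zt
  have hzt' := ht.f23.zt
  have x12 := ht.x12
  have x13 := ht.x13
  have x23 := ht.x23
  have sp := ht.sp
  have hL := ht.L
  have ε1 := ht.ε1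
  have k12 := hb.k12
  have a12 := hb.a12
  have e12 : 1 ≤ x.e12 := hb.e12.2.2.1 (by omega)
  have X0b : X0 x ≤ 6 + H + 2 * (ε : ℤ) + ((x.d12 : ℤ) + x.d21 + x.d13 + x.d31 + x.d23 + x.d32) +
      ((x.k12 : ℤ) + x.k13 + x.k23) := by
    unfold X0
    rw [x12, x13, x23]
    zify at hL
    have : (0 : ℤ) ≤ x.dn := by positivity
    linarith
  have tt := sq_nn t
  have tt' := sq_nn t'
  have csq := c_sq n n' ε hn1 hn2 hn1' hn2' ε1
  set Z1 : ℤ := 3 - (((W1 x : ℤ) + W2 x + W3 x) - s) + X0 x - (H + 3 + max n n') with hZ1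
  set V1 : ℤ := (((W1 x : ℤ) + W2 x + W3 x) - s) + x.a12 + x.a13 + x.a23 + x.bk with hV1
  have zb : Z1 ≤ (6 + 2 * (min n n' : ℕ) + 2 * (ε : ℤ)) + x.k12 + t + t' := by
    rw [hZ1]
    clear z1 v1 sb sb' q1 q2 tt tt' csq a12 hZ1 hV1 hL
    omega
  have vb : 2 * (((max n n' : ℕ) : ℤ) + 4 * ((n : ℤ) + n') - 3) + 2 * ((x.d12 : ℤ) + x.d21) +
      2 * x.a12 + 4 * ((t : ℤ) + t') + ((t : ℤ) * t - t) + ((t' : ℤ) * t' - t') ≤ 2 * V1 := by
    rw [hV1]
    clear z1 v1 q1 q2 csq a12 hZ1 hV1 hL X0b zb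
    generalize (t : ℤ) * t = T at *
    generalize (t' : ℤ) * t' = T' at *
    omega
  have good : Good Z1 V1 := by
    refine hNG (6 + 2 * (min n n' : ℕ) + 2 * (ε : ℤ))
      (((max n n' : ℕ) : ℤ) + 4 * ((n : ℤ) + n') - 3) x.e12 x.k12 ((x.d12 : ℤ) + x.d21) t t'
      x.a12 Z1 V1 (by omega) (by omega) ?_ (by exact_mod_cast e12) (by omega) (by omega)
      (by omega) (by omega) (by omega) ?_ zb vb
    · exact csq
    · have h1 : x.u1 + x.d12 ≤ x.w12 := b12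
      have h2 : x.u2 + x.d21 ≤ x.w21 := b21
      zify at a12
      generalize (x.e12 : ℤ) * x.e12 = E at *
      omega
  have V2 : 2 ≤ V1 := by omega
  refine hnf Z1 V1 (Zx x) (Vx x) (nf x.A1 (W1 x) + nf x.A2 (W2 x)) good V2 (by omega) (by omega)
    ?_ ?_
  · rw [hZ1]
    generalize nf x.A1 (W1 x) * ((W1 x : ℤ) + 2) = P1 at *
    generalize nf x.A2 (W2 x) * ((W2 x : ℤ) + 2) = P2 at *
    omega
  · rw [hV1]
    omega

end Pool.Agent.Helper95.W4
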