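import Pool.Agent.Helper21.W4.St3

/-!
# Project W4, module Nzv: the bounds for Z and V
-/

set_option autoImplicit false

namespace Pool.Agent.Helper95.W4

open Pool.Agent.Helper21.W4 Finset

theorem fl_nf (A W : ℕ) : (W < A ∧ fl A W = 2 ∧ nf A W = 0) ∨
    (A ≤ W ∧ fl A W = -((A : ℤ) + 1) ∧ nf A W = 1) := by
  unfold fl nf
  by_cases h : W < A
  · left; simp [h]
  · right; simp [h]; omega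

/-- pure arithmetic -/
theorem nzv_core (m N κ A1 A2 A3 w1 w2 w3 a12 a13 a23 bk s : ℕ) (X f1 f2 f3 n1 n2 n3 : ℤ)
    (hm : m = 1 + A1 + A2 + A3 + a12 + a13 + a23 + bk)
    (hE : (m : ℤ) - N ≤ 1 - ((A1 : ℤ) + A2 + A3) + X + (f1 + f2 + f3))
    (h1 : w1 ≤ A1) (h2 : w2 ≤ A2) (h3 : w3 ≤ A3)
    (s1 : w1 + 1 ≤ s) (s2 : w2 + 1 ≤ s) (s3 : w3 + 1 ≤ s)
    (k : κ = s + 3 ∨ (κ = A1 + 3 ∧ s < A1) ∨ (κ = A2 + 3 ∧ s < A2) ∨ (κ = A3 + 3 ∧ s < A3))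
    (c1 : (w1 < A1 ∧ f1 = 2 ∧ n1 = 0) ∨ (A1 ≤ w1 ∧ f1 = -((A1 : ℤ) + 1) ∧ n1 = 1))
    (c2 : (w2 < A2 ∧ f2 = 2 ∧ n2 = 0) ∨ (A2 ≤ w2 ∧ f2 = -((A2 : ℤ) + 1) ∧ n2 = 1))
    (c3 : (w3 < A3 ∧ f3 = 2 ∧ n3 = 0) ∨ (A3 ≤ w3 ∧ f3 = -((A3 : ℤ) + 1) ∧ n3 = 1)) :
    (m : ℤ) - N + κ - 4 ≤ 3 - (((w1 : ℤ) + w2 + w3) - s) + X - n1 * ((w1 : ℤ) + 2) -
      n2 * ((w2 : ℤ) + 2) - n3 * ((w3 : ℤ) + 2) ∧
    (((w1 : ℤ) + w2 + w3) - s) + 1 + a12 + a13 + a23 + bk - n1 - n2 - n3 ≤ (m : ℤ) - κ := by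
  rcases c1 with ⟨d1, e1, g1⟩ | ⟨d1, e1, g1⟩ <;> rcases c2 with ⟨d2, e2, g2⟩ | ⟨d2, e2, g2⟩ <;>
    rcases c3 with ⟨d3, e3, g3⟩ | ⟨d3, e3, g3⟩ <;> subst e1 g1 e2 g2 e3 g3 <;>
    rcases k with k | ⟨k, k'⟩ | ⟨k, k'⟩ | ⟨k, k'⟩ <;> subst k <;> constructor <;> omega

/-- The bounds for Z and V. -/
theorem hNzv : StNzv := by
  intro x s hb hy
  have hW1 : W1 x ≤ x.A1 := max_le hb.w12 hb.w13
  have hW2 : W2 x ≤ x.A2 := max_le hb.w21 hb.w23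
  have hW3 : W3 x ≤ x.A3 := max_le hb.w31 hb.w32
  have t1 : W1 x + 1 ≤ s := by
    have := hy.w12; have := hy.w13
    unfold W1; omega
  have t2 : W2 x + 1 ≤ s := by
    have := hy.w21; have := hy.w23
    unfold W2; omega
  have t3 : W3 x + 1 ≤ s := by
    have := hy.w31; have := hy.w32
    unfold W3; omega
  exact nzv_core x.m x.N x.κ x.A1 x.A2 x.A3 (W1 x) (W2 x) (W3 x) x.a12 x.a13 x.a23 x.bk s (X0 x)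
    _ _ _ _ _ _ hb.hm hb.hE hW1 hW2 hW3 t1 t2 t3 hy.k (fl_nf _ _) (fl_nf _ _) (fl_nf _ _)

end Pool.Agent.Helper95.W4
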